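import Mathlib
import Pool.Agent.Helper5.IDDefs
import Pool.Agent.Helper5.IDFinal

set_option autoImplicit false

namespace Pool.Agent.Results.MP_54a553_al.Affirmative

open Pool.Agent.Helper5.VF

universe u

/-- **Main result.** If `(K, v)` is a (nontrivially valued) henselian field and every algebraic
extension of `(K, v)` is an independent defect field, then `(K, v)` is roughly deeply ramified. -/
theorem result (K : Type u) [Field K] (A : ValuationSubring K) (hA : A ≠ ⊤)
    (hK : IsHenselian A)
    (hind : ∀ (L : Type u) [Field L] [Algebra K L] [Algebra.IsAlgebraic K L]
      (B : ValuationSubring L), Extends A B → IsIndependentDefectField B) :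
    IsRoughlyDeeplyRamified A :=
  Pool.Agent.Helper5.ID.affirmative hA hK hind

end Pool.Agent.Results.MP_54a553_al.Affirmative
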